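import Mathlib

set_option autoImplicit false

/-! Erdős' theorem: graphs of large girth and large chromatic number, by counting. -/

namespace Pool.Agent.W179.Erdos

open Finset

/-- `f 0, ..., f (l - 1)` is a cycle of length `l` in `G`. -/
structure FCyc {V : Type*} (G : SimpleGraph V) (l : ℕ) (f : ℕ → V) : Prop where
  three : 3 ≤ l
  inj : ∀ i < l, ∀ j < l, f i = f j → i = j
  adj : ∀ i, i + 1 < l → G.Adj (f i) (f (i + 1))
  close : G.Adj (f (l - 1)) (f 0)

section count

variable {E : Type*} [Fintype E] [DecidableEq E] {M : ℕ}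

theorem count (A : Finset E) (T : Finset (Fin M)) :
    ((univ.filter fun f : E → Fin M => ∀ e ∈ A, f e ∈ T).card : ℝ) * (M : ℝ) ^ A.card =
      (T.card : ℝ) ^ A.card * (M : ℝ) ^ Fintype.card E := by
  classical
  have h1 : (univ.filter fun f : E → Fin M => ∀ e ∈ A, f e ∈ T) =
      Fintype.piFinset (fun e => if e ∈ A then T else univ) := by
    ext f
    simp only [mem_filter, mem_univ, true_and, Fintype.mem_piFinset]
    constructor
    · intro h e
      by_cases he : e ∈ A
      · simpa [he] using h e he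
      · simp [he]
    · intro h e he
      have := h e
      simpa [he] using this
  rw [h1, Fintype.card_piFinset]
  have h2 : ∀ e, (if e ∈ A then T else (univ : Finset (Fin M))).card =
      if e ∈ A then T.card else M := by
    intro e; split_ifs <;> simp
  simp only [h2]
  rw [prod_ite, prod_const, prod_const]
  have h3 : (univ.filter fun e => e ∈ A) = A := by ext; simp
  have h4 : (univ.filter fun e => e ∉ A).card + A.card = Fintype.card E := by
    have : (univ.filter fun e => e ∉ A) = Aᶜ := by ext; simp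
    rw [this, card_compl]
    have := card_le_univ A
    omega
  rw [h3, ← h4]
  push_cast
  ring

end count

/-- the edges of a cyclic sequence -/
def cedges {n m : ℕ} (v : Fin (m + 3) → Fin n) : Finset (Sym2 (Fin n)) :=
  univ.image fun t : Fin (m + 3) => s(v t, v (t + 1))

theorem fin_two_ne {m : ℕ} (t : Fin (m + 3)) : t + 1 + 1 ≠ t := by
  intro h
  have h1 : (1 : Fin (m + 3)) + 1 = 0 := by
    have : t + (1 + 1) = t + 0 := by rw [← add_assoc, h, add_zero]
    exact add_left_cancel this
  have h2 := congrArg Fin.val h1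
  rw [Fin.val_add] at h2
  simp only [Fin.val_one, Fin.val_zero] at h2
  rw [Nat.mod_eq_of_lt (by omega)] at h2
  omega

theorem card_cedges {n m : ℕ} (v : Fin (m + 3) → Fin n) (hv : Function.Injective v) :
    (cedges v).card = m + 3 := by
  unfold cedges
  rw [card_image_of_injective, card_univ, Fintype.card_fin]
  intro a b hab
  simp only [Sym2.eq_iff] at hab
  rcases hab with ⟨h, -⟩ | ⟨h1, h2⟩
  · exact hv h
  · have e1 := hv h1
    have e2 := hv h2
    exfalso
    rw [e1] at e2
    exact fin_two_ne b e2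

/-- the pairs inside `S` -/
def pairs {n : ℕ} (S : Finset (Fin n)) : Finset (Sym2 (Fin n)) :=
  S.offDiag.image Sym2.mk.uncurry

theorem mem_pairs {n : ℕ} (S : Finset (Fin n)) (a b : Fin n) (ha : a ∈ S) (hb : b ∈ S)
    (hab : a ≠ b) : s(a, b) ∈ pairs S := by
  unfold pairs
  rw [mem_image]
  exact ⟨(a, b), by simp [ha, hb, hab], rfl⟩

theorem pairs_sub {n : ℕ} (S : Finset (Fin n)) (e : Sym2 (Fin n)) (he : e ∈ pairs S) :
    ∃ a ∈ S, ∃ b ∈ S, a ≠ b ∧ e = s(a, b) := by
  unfold pairs at he
  rw [mem_image] at he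
  obtain ⟨⟨a, b⟩, h, rfl⟩ := he
  simp only [mem_offDiag] at h
  exact ⟨a, h.1, b, h.2.1, h.2.2, rfl⟩

open Classical in
/-- number of short bad cycles -/
noncomputable def X {n M : ℕ} [NeZero M] (g : ℕ) (f : Sym2 (Fin n) → Fin M) :
    Finset (Σ m : Fin g, (Fin (m.val + 3) → Fin n)) :=
  univ.filter fun p => Function.Injective p.2 ∧ ∀ e ∈ cedges p.2, f e ∈ ({0} : Finset (Fin M))

open Classical in
theorem main_count (k g : ℕ) (hk : 1 ≤ k) : ∃ (n s M : ℕ) (_ : NeZero M) (f : Sym2 (Fin n) → Fin M),
    1 ≤ s ∧ n = 2 * k * s ∧ (X g f).card < k * s ∧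
    ∀ S : Finset (Fin n), S.card = s → ∃ e ∈ pairs S, f e = 0 := by
  -- parameters
  set D : ℝ := 2 * k * (8 * k + 1) with hD
  have hk' : (1 : ℝ) ≤ k := by exact_mod_cast hk
  have hD1 : 1 ≤ D := by rw [hD]; nlinarith
  obtain ⟨M0, hM0⟩ := exists_nat_gt (2 * (g * D ^ (g + 3)))
  set M : ℕ := M0 + 1 with hM
  set s : ℕ := 8 * k * M + 1 with hs
  set n : ℕ := 2 * k * s with hn
  haveI : NeZero M := ⟨by omega⟩
  have hMpos : (0 : ℝ) < M := by exact_mod_cast (by omega : 0 < M)
  have hM1 : (1 : ℝ) ≤ M := by exact_mod_cast (by omega : 1 ≤ M)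
  have hkpos : (0 : ℝ) < k := by linarith
  have hsM : (8 * k * M + 1 : ℝ) = s := by rw [hs]; push_cast; ring
  have hnR : (n : ℝ) = 2 * k * s := by rw [hn]; push_cast; ring
  have hnD : (n : ℝ) ≤ D * M := by
    rw [hnR, ← hsM, hD]; nlinarith
  set Q : ℝ := (M : ℝ) ^ Fintype.card (Sym2 (Fin n)) with hQ
  have hQpos : 0 < Q := by positivity
  by_contra hcon
  push Not at hcon
  have hall : ∀ f : Sym2 (Fin n) → Fin M, k * s ≤ (X g f).card ∨
      ∃ S : Finset (Fin n), S.card = s ∧ ∀ e ∈ pairs S, f e ≠ 0 := by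
    intro f
    by_contra h
    push Not at h
    obtain ⟨S, hS, h2⟩ := hcon n s M inferInstance f (by omega) rfl h.1
    obtain ⟨e, he, h3⟩ := h.2 S hS
    exact h2 e he h3
  -- first moment of the number of cycles
  have hX : (∑ f : Sym2 (Fin n) → Fin M, ((X g f).card : ℝ)) ≤ g * D ^ (g + 3) * Q := by
    have h1 : (∑ f : Sym2 (Fin n) → Fin M, ((X g f).card : ℝ)) =
        ∑ p : (Σ m : Fin g, (Fin (m.val + 3) → Fin n)),
          ((univ.filter fun f : Sym2 (Fin n) → Fin M => Function.Injective p.2 ∧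
            ∀ e ∈ cedges p.2, f e ∈ ({0} : Finset (Fin M))).card : ℝ) := by
      simp only [X, card_filter, Nat.cast_sum]
      rw [sum_comm]
    rw [h1]
    have h2 : ∀ p : (Σ m : Fin g, (Fin (m.val + 3) → Fin n)),
        ((univ.filter fun f : Sym2 (Fin n) → Fin M => Function.Injective p.2 ∧
            ∀ e ∈ cedges p.2, f e ∈ ({0} : Finset (Fin M))).card : ℝ) ≤
          Q / (M : ℝ) ^ (p.1.val + 3) := by
      intro p
      by_cases hp : Function.Injective p.2
      · have h3 := count (M := M) (cedges p.2) ({0} : Finset (Fin M))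
        rw [card_cedges p.2 hp] at h3
        simp only [card_singleton, Nat.cast_one, one_pow, one_mul] at h3
        rw [le_div_iff₀ (by positivity)]
        refine le_trans (le_of_eq ?_) (le_of_eq h3)
        congr 2
        congr 1
        ext f
        simp [hp]
      · have : (univ.filter fun f : Sym2 (Fin n) → Fin M => Function.Injective p.2 ∧
            ∀ e ∈ cedges p.2, f e ∈ ({0} : Finset (Fin M))) = ∅ := by
          ext f; simp [hp]
        rw [this]
        simp only [card_empty, Nat.cast_zero]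
        positivity
    refine (sum_le_sum fun p _ => h2 p).trans ?_
    rw [← univ_sigma_univ, sum_sigma]
    simp only [sum_const, card_univ, Fintype.card_fun, Fintype.card_fin, nsmul_eq_mul]
    have h4 : ∀ m : Fin g, ((n ^ (m.val + 3) : ℕ) : ℝ) * (Q / (M : ℝ) ^ (m.val + 3)) ≤
        D ^ (g + 3) * Q := by
      intro m
      have h5 : ((n ^ (m.val + 3) : ℕ) : ℝ) ≤ D ^ (m.val + 3) * (M : ℝ) ^ (m.val + 3) := by
        push_cast
        rw [← mul_pow]
        exact pow_le_pow_left₀ (by positivity) hnD _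
      have h6 : D ^ (m.val + 3) ≤ D ^ (g + 3) := pow_le_pow_right₀ hD1 (by omega)
      calc ((n ^ (m.val + 3) : ℕ) : ℝ) * (Q / (M : ℝ) ^ (m.val + 3))
          ≤ (D ^ (m.val + 3) * (M : ℝ) ^ (m.val + 3)) * (Q / (M : ℝ) ^ (m.val + 3)) := by
            gcongr
        _ = D ^ (m.val + 3) * Q := by field_simp
        _ ≤ D ^ (g + 3) * Q := by gcongr
    refine (sum_le_sum fun m _ => h4 m).trans ?_
    rw [sum_const, card_univ, Fintype.card_fin, nsmul_eq_mul]
    exact le_of_eq (by ring)
  -- the number of functions with many short cycles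
  have hA : ((univ.filter fun f : Sym2 (Fin n) → Fin M => k * s ≤ (X g f).card).card : ℝ) *
      (k * s) ≤ g * D ^ (g + 3) * Q := by
    refine le_trans ?_ hX
    calc ((univ.filter fun f : Sym2 (Fin n) → Fin M => k * s ≤ (X g f).card).card : ℝ) * (k * s)
        = ∑ f ∈ (univ.filter fun f : Sym2 (Fin n) → Fin M => k * s ≤ (X g f).card),
            ((k : ℝ) * s) := by rw [sum_const, nsmul_eq_mul]
      _ ≤ ∑ f ∈ (univ.filter fun f : Sym2 (Fin n) → Fin M => k * s ≤ (X g f).card),
            ((X g f).card : ℝ) := by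
          refine sum_le_sum fun f hf => ?_
          have := (mem_filter.mp hf).2
          exact_mod_cast this
      _ ≤ ∑ f : Sym2 (Fin n) → Fin M, ((X g f).card : ℝ) :=
          sum_le_sum_of_subset_of_nonneg (filter_subset _ _) fun _ _ _ => by positivity
  have hsk : 2 * (g * D ^ (g + 3)) < (k : ℝ) * s := by
    refine hM0.trans_le ?_
    have h0 : (M0 : ℝ) ≤ M := by exact_mod_cast (by omega : M0 ≤ M)
    have h1 : (M : ℝ) ≤ s := by rw [← hsM]; nlinarith
    have h2 : (s : ℝ) ≤ k * s := by
      have : (0 : ℝ) ≤ s := by positivity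
      nlinarith
    linarith
  have hA' : ((univ.filter fun f : Sym2 (Fin n) → Fin M => k * s ≤ (X g f).card).card : ℝ) <
      Q / 2 := by
    by_contra h
    push Not at h
    have h1 : Q / 2 * (k * s) ≤ g * D ^ (g + 3) * Q :=
      (mul_le_mul_of_nonneg_right h (by positivity)).trans hA
    nlinarith
  -- independent sets
  have hB : ∀ S : Finset (Fin n), S.card = s →
      ((univ.filter fun f : Sym2 (Fin n) → Fin M => ∀ e ∈ pairs S, f e ∈ ({0}ᶜ : Finset (Fin M))).card : ℝ)
        ≤ Real.exp (-(4 * k * s)) * Q := by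
    intro S hS
    have h1 := count (M := M) (pairs S) ({0}ᶜ : Finset (Fin M))
    have hc : (pairs S).card = s.choose 2 := by
      unfold pairs
      rw [Sym2.card_image_offDiag, hS]
    have hc2 : (({0}ᶜ : Finset (Fin M)).card : ℝ) = M - 1 := by
      rw [card_compl, card_singleton, Fintype.card_fin, Nat.cast_sub (by omega)]
      simp
    rw [hc, hc2] at h1
    have h2 : ((univ.filter fun f : Sym2 (Fin n) → Fin M =>
        ∀ e ∈ pairs S, f e ∈ ({0}ᶜ : Finset (Fin M))).card : ℝ) =
        (1 - 1 / (M : ℝ)) ^ (s.choose 2) * Q := by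
      have h3 : (M : ℝ) ^ (s.choose 2) ≠ 0 := by positivity
      have h4 : (1 - 1 / (M : ℝ)) ^ (s.choose 2) * (M : ℝ) ^ (s.choose 2) =
          ((M : ℝ) - 1) ^ (s.choose 2) := by
        rw [← mul_pow]
        congr 1
        field_simp
      apply mul_right_cancel₀ h3
      rw [h1]
      calc ((M : ℝ) - 1) ^ (s.choose 2) * (M : ℝ) ^ Fintype.card (Sym2 (Fin n))
          = ((1 - 1 / (M : ℝ)) ^ (s.choose 2) * (M : ℝ) ^ (s.choose 2)) * Q := by rw [h4]
        _ = _ := by ring
    rw [h2]
    gcongr
    have h5 : (1 - 1 / (M : ℝ)) ≤ Real.exp (-(1 / (M : ℝ))) := by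
      have := Real.add_one_le_exp (-(1 / (M : ℝ)))
      linarith
    have h6 : 0 ≤ 1 - 1 / (M : ℝ) := by
      rw [sub_nonneg, div_le_one hMpos]
      exact hM1
    refine (pow_le_pow_left₀ h6 h5 _).trans ?_
    rw [← Real.exp_nat_mul]
    apply Real.exp_le_exp.mpr
    have h7 : ((s.choose 2 : ℕ) : ℝ) = s * (s - 1) / 2 := by
      rw [Nat.cast_choose_two]
    rw [h7]
    have h8 : ((s : ℝ) - 1) = 8 * k * M := by rw [← hsM]; ring
    rw [h8]
    apply le_of_eq
    field_simp
    ring
  have hC : ((univ.filter fun f : Sym2 (Fin n) → Fin M => ∃ S : Finset (Fin n), S.card = s ∧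
      ∀ e ∈ pairs S, f e ≠ 0).card : ℝ) ≤ 2 ^ n * (Real.exp (-(4 * k * s)) * Q) := by
    have h1 : (univ.filter fun f : Sym2 (Fin n) → Fin M => ∃ S : Finset (Fin n), S.card = s ∧
      ∀ e ∈ pairs S, f e ≠ 0) ⊆ (univ.filter fun S : Finset (Fin n) => S.card = s).biUnion
        fun S => univ.filter fun f : Sym2 (Fin n) → Fin M =>
          ∀ e ∈ pairs S, f e ∈ ({0}ᶜ : Finset (Fin M)) := by
      intro f hf
      obtain ⟨S, hS, h⟩ := (mem_filter.mp hf).2
      rw [mem_biUnion]
      refine ⟨S, by simp [hS], ?_⟩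
      simp only [mem_filter, mem_univ, true_and, mem_compl, mem_singleton]
      exact h
    have h2 := (card_le_card h1).trans card_biUnion_le
    have h3 : ((univ.filter fun f : Sym2 (Fin n) → Fin M => ∃ S : Finset (Fin n), S.card = s ∧
      ∀ e ∈ pairs S, f e ≠ 0).card : ℝ) ≤ ∑ S ∈ (univ.filter fun S : Finset (Fin n) => S.card = s),
        ((univ.filter fun f : Sym2 (Fin n) → Fin M =>
          ∀ e ∈ pairs S, f e ∈ ({0}ᶜ : Finset (Fin M))).card : ℝ) := by
      exact_mod_cast h2
    refine h3.trans ((sum_le_sum fun S hS => hB S (mem_filter.mp hS).2).trans ?_)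
    rw [sum_const, nsmul_eq_mul]
    gcongr
    have h4 : (univ.filter fun S : Finset (Fin n) => S.card = s).card ≤ 2 ^ n := by
      refine (card_le_univ _).trans ?_
      rw [Fintype.card_finset, Fintype.card_fin]
    exact_mod_cast h4
  have hC' : 2 ^ n * (Real.exp (-(4 * k * s)) * Q) < Q / 2 := by
    have h1 : (2 : ℝ) ^ n ≤ Real.exp n := by
      have := Real.exp_one_gt_d9
      rw [← Real.exp_one_pow]
      exact pow_le_pow_left₀ (by norm_num) (by linarith) _
    have h2 : Real.exp n * Real.exp (-(4 * k * s)) = Real.exp (-(2 * k * s)) := by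
      rw [← Real.exp_add, hnR]
      congr 1
      ring
    have h3 : Real.exp (-(2 * k * s)) < 1 / 2 := by
      have h4 : (1 : ℝ) ≤ 2 * k * s := by
        have : (1 : ℝ) ≤ s := by exact_mod_cast (by omega : 1 ≤ s)
        nlinarith
      have h5 : Real.exp (-(2 * k * s)) ≤ Real.exp (-1) := Real.exp_le_exp.mpr (by linarith)
      have h6 : Real.exp (-1) < 1 / 2 := by
        rw [Real.exp_neg, inv_lt_comm₀ (Real.exp_pos _) (by norm_num)]
        have := Real.exp_one_gt_d9
        norm_num
        linarith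
      linarith
    have h4 : (2 : ℝ) ^ n * Real.exp (-(4 * k * s)) < 1 / 2 := by
      refine lt_of_le_of_lt ?_ h3
      rw [← h2]
      gcongr
    nlinarith
  -- conclusion
  have hcover : (univ : Finset (Sym2 (Fin n) → Fin M)) ⊆
      (univ.filter fun f : Sym2 (Fin n) → Fin M => k * s ≤ (X g f).card) ∪
      (univ.filter fun f : Sym2 (Fin n) → Fin M => ∃ S : Finset (Fin n), S.card = s ∧
        ∀ e ∈ pairs S, f e ≠ 0) := by
    intro f _
    rw [mem_union]
    rcases hall f with h | h
    · left; simp [h]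
    · right; simpa using h
  have h1 := (card_le_card hcover).trans (card_union_le _ _)
  have h2 : ((univ : Finset (Sym2 (Fin n) → Fin M)).card : ℝ) = Q := by
    rw [card_univ, Fintype.card_fun, Fintype.card_fin]
    push_cast
    rfl
  have h3 : Q ≤ ((univ.filter fun f : Sym2 (Fin n) → Fin M => k * s ≤ (X g f).card).card : ℝ) +
      ((univ.filter fun f : Sym2 (Fin n) → Fin M => ∃ S : Finset (Fin n), S.card = s ∧
        ∀ e ∈ pairs S, f e ≠ 0).card : ℝ) := by
    rw [← h2]
    exact_mod_cast h1
  linarith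

/-- Erdős 1959: for all `k`, `g` there is a finite graph without cycles of length at most `g` that
is not `k`-colourable. -/
theorem erdos (k g : ℕ) : ∃ (V : Type) (_ : Fintype V) (H : SimpleGraph V),
    ¬ H.Colorable k ∧ ∀ l f, FCyc H l f → g < l := by
  classical
  rcases Nat.eq_zero_or_pos k with rfl | hk
  · refine ⟨Unit, inferInstance, ⊥, ?_, ?_⟩
    · rintro ⟨c⟩
      exact (c ()).elim0
    · intro l f h
      exact absurd h.close (by simp)
  obtain ⟨n, s, M, _, f, hs, hn, hX, hI⟩ := main_count k (g + 1) hk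
  let G : SimpleGraph (Fin n) :=
    { Adj := fun u v => u ≠ v ∧ f s(u, v) = 0
      symm := ⟨fun u v h => ⟨h.1.symm, by rw [Sym2.eq_swap]; exact h.2⟩⟩
      loopless := ⟨fun u h => h.1 rfl⟩ }
  let B : Finset (Fin n) := (X (g + 1) f).image fun p => p.2 0
  have hB : B.card < k * s := lt_of_le_of_lt card_image_le hX
  let U : Finset (Fin n) := Bᶜ
  have hU : k * s ≤ U.card := by
    show k * s ≤ (Bᶜ).card
    rw [card_compl, Fintype.card_fin]
    have : n = k * s + k * s := by rw [hn]; ring
    omega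
  refine ⟨{v // v ∈ U}, inferInstance, G.induce (fun v => v ∈ U), ?_, ?_⟩
  · rintro ⟨c⟩
    have h1 : ∃ y ∈ (univ : Finset (Fin k)), s ≤ ((univ : Finset {v // v ∈ U}).filter
        fun x => c x = y).card := by
      haveI : Nonempty (Fin k) := ⟨⟨0, hk⟩⟩
      apply exists_le_card_fiber_of_mul_le_card_of_maps_to
      · intro a _; exact mem_univ _
      · exact univ_nonempty
      · rw [card_univ, Fintype.card_fin, card_univ, Fintype.card_coe]
        exact hU
    obtain ⟨y, -, hy⟩ := h1
    obtain ⟨T, hT1, hT2⟩ := exists_subset_card_eq hy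
    let S : Finset (Fin n) := T.map (Function.Embedding.subtype _)
    have hS : S.card = s := by rw [card_map, hT2]
    obtain ⟨e, he, h0⟩ := hI S hS
    obtain ⟨a, ha, b, hb, hab, rfl⟩ := pairs_sub S e he
    obtain ⟨a', ha', rfl⟩ := mem_map.mp ha
    obtain ⟨b', hb', rfl⟩ := mem_map.mp hb
    have hadj : (G.induce (fun v => v ∈ U)).Adj a' b' := ⟨hab, h0⟩
    apply c.valid hadj
    rw [(mem_filter.mp (hT1 ha')).2, (mem_filter.mp (hT1 hb')).2]
  · intro l φ h
    by_contra hl
    push Not at hl
    have h3 := h.three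
    obtain ⟨m, rfl⟩ : ∃ m, l = m + 3 := ⟨l - 3, by omega⟩
    have hm : m < g + 1 := by omega
    let v : Fin (m + 3) → Fin n := fun t => (φ t.val).val
    have hv : Function.Injective v := by
      intro a b hab
      have := h.inj a.val a.isLt b.val b.isLt (Subtype.ext hab)
      exact Fin.ext this
    have hz : ∀ e ∈ cedges v, f e ∈ ({0} : Finset (Fin M)) := by
      intro e he
      unfold cedges at he
      obtain ⟨t, -, rfl⟩ := mem_image.mp he
      rw [mem_singleton]
      by_cases ht : t.val + 1 < m + 3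
      · have h5 : (t + 1 : Fin (m + 3)).val = t.val + 1 := by
          rw [Fin.val_add, Fin.val_one, Nat.mod_eq_of_lt ht]
        have h4 := (h.adj t.val ht)
        have h6 : v (t + 1) = (φ (t.val + 1)).val := by
          show (φ (t + 1 : Fin (m + 3)).val).val = _
          rw [h5]
        rw [h6]
        exact h4.2
      · have h7 : t.val = m + 3 - 1 := by
          have := t.isLt
          omega
        have h5 : (t + 1 : Fin (m + 3)).val = 0 := by
          rw [Fin.val_add, Fin.val_one, h7]
          have : m + 3 - 1 + 1 = m + 3 := by omega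
          rw [this, Nat.mod_self]
        have h4 := h.close
        have h6 : v (t + 1) = (φ 0).val := by
          show (φ (t + 1 : Fin (m + 3)).val).val = _
          rw [h5]
        have h8 : v t = (φ (m + 3 - 1)).val := by
          show (φ t.val).val = _
          rw [h7]
        rw [h6, h8]
        exact h4.2
    have hmem : (⟨⟨m, hm⟩, v⟩ : Σ m : Fin (g + 1), (Fin (m.val + 3) → Fin n)) ∈ X (g + 1) f := by
      unfold X
      rw [mem_filter]
      exact ⟨mem_univ _, hv, hz⟩
    have h9 : v 0 ∈ B := mem_image.mpr ⟨_, hmem, rfl⟩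
    have h10 : (φ 0).val ∈ U := (φ 0).property
    exact (mem_compl.mp h10) h9

end Pool.Agent.W179.Erdos
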