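import Mathlib
import Pool.Agent.W179.Erdos

set_option autoImplicit false

/-! Critical graphs of prescribed girth built from `K_k` by replacing edges with long gadgets. -/

namespace Pool.Agent.W179.ST

open Pool.Agent.W179.Erdos

section fcyc

variable {V W : Type*} {G : SimpleGraph V} {l : ℕ} {f : ℕ → V}

theorem FCyc.mono {G' : SimpleGraph V} (h : FCyc G l f) (hG : G ≤ G') : FCyc G' l f :=
  ⟨h.three, h.inj, fun i hi => hG (h.adj i hi), hG h.close⟩

theorem FCyc.map {G' : SimpleGraph W} (h : FCyc G l f) (φ : V → W) (hφ : Function.Injective φ)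
    (ha : ∀ u v, G.Adj u v → G'.Adj (φ u) (φ v)) : FCyc G' l (fun i => φ (f i)) :=
  ⟨h.three, fun i hi j hj hij => h.inj i hi j hj (hφ hij), fun i hi => ha _ _ (h.adj i hi),
    ha _ _ h.close⟩

theorem FCyc.step (h : FCyc G l f) (i : ℕ) (hi : i < l) : G.Adj (f i) (f ((i + 1) % l)) := by
  have h3 := h.three
  by_cases h1 : i + 1 < l
  · rw [Nat.mod_eq_of_lt h1]; exact h.adj i h1
  · have : i = l - 1 := by omega
    subst this
    have e : l - 1 + 1 = l := by omega
    rw [e, Nat.mod_self]
    exact h.close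

theorem FCyc.rotate (h : FCyc G l f) (t : ℕ) : FCyc G l (fun i => f ((i + t) % l)) := by
  have h3 := h.three
  have hl : 0 < l := by omega
  refine ⟨h3, ?_, ?_, ?_⟩
  · intro i hi j hj hij
    have h1 := h.inj _ (Nat.mod_lt _ hl) _ (Nat.mod_lt _ hl) hij
    have h2 : i ≡ j [MOD l] := Nat.ModEq.add_right_cancel' t h1
    exact Nat.ModEq.eq_of_lt_of_lt h2 hi hj
  · intro i hi
    have h1 := FCyc.step h ((i + t) % l) (Nat.mod_lt _ hl)
    have e : ((i + t) % l + 1) % l = (i + 1 + t) % l := by
      rw [Nat.mod_add_mod]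
      congr 1
      omega
    rw [e] at h1
    exact h1
  · have h1 := FCyc.step h ((l - 1 + t) % l) (Nat.mod_lt _ hl)
    have e : ((l - 1 + t) % l + 1) % l = (0 + t) % l := by
      rw [Nat.mod_add_mod]
      have : l - 1 + t + 1 = t + l := by omega
      rw [this, Nat.add_mod_right, zero_add]
    rw [e] at h1
    exact h1

theorem exists_boundary (h3 : 0 < l) (In : ℕ → Prop) (i0 i1 : ℕ) (h0 : i0 < l) (h1 : i1 < l)
    (hi0 : In i0) (hi1 : ¬ In i1) : ∃ t < l, ¬ In t ∧ In ((t + 1) % l) := by
  by_contra hcon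
  push Not at hcon
  have key : ∀ s : ℕ, ¬ In ((i1 + s) % l) := by
    intro s
    induction s with
    | zero => rwa [add_zero, Nat.mod_eq_of_lt h1]
    | succ s ih =>
      have := hcon _ (Nat.mod_lt _ h3) ih
      rw [Nat.mod_add_mod] at this
      exact this
  have h2 := key (i0 + l - i1)
  have e : i1 + (i0 + l - i1) = i0 + l := by omega
  rw [e, Nat.add_mod_right, Nat.mod_eq_of_lt h0] at h2
  exact h2 hi0

/-- a cycle as a closed walk gives a cyclic sequence -/
theorem fcyc_of_walk {u : V} (w : G.Walk u u) (hw : w.IsCycle) : FCyc G w.length w.getVert := by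
  have h3 := hw.three_le_length
  refine ⟨h3, ?_, ?_, ?_⟩
  · intro i hi j hj hij
    exact hw.getVert_injOn' (by simp; omega) (by simp; omega) hij
  · intro i hi
    exact w.adj_getVert_succ (by omega)
  · have h1 := w.adj_getVert_succ (i := w.length - 1) (by omega)
    have e : w.length - 1 + 1 = w.length := by omega
    rw [e, w.getVert_length] at h1
    rw [w.getVert_zero]
    exact h1

theorem walk_of_fcyc (h : FCyc G l f) : ∃ (u : V) (w : G.Walk u u), w.IsCycle ∧ w.length = l := by
  have h3 := h.three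
  rw [← SimpleGraph.cycleGraph_isContained_iff (by omega : 2 < l)]
  refine ⟨⟨⟨fun i => f i.val, ?_⟩, ?_⟩⟩
  · intro a b hab
    rw [SimpleGraph.cycleGraph_adj'] at hab
    have ha := a.isLt
    have hb := b.isLt
    have key : ∀ a b : Fin l, (a - b).val = 1 → G.Adj (f b.val) (f a.val) := by
      intro a b hab
      have h1 := FCyc.step h b.val b.isLt
      have : (b.val + 1) % l = a.val := by
        have h2 : (b.val + (a - b).val) % l = a.val := by
          have e : b + (a - b) = a := by
            haveI : NeZero l := ⟨by omega⟩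
            exact add_sub_cancel b a
          have := congrArg Fin.val e
          rwa [Fin.val_add] at this
        rwa [hab] at h2
      rwa [this] at h1
    rcases hab with h1 | h1
    · exact (key a b h1).symm
    · exact key b a h1
  · intro a b hab
    exact Fin.ext (h.inj _ a.isLt _ b.isLt hab)

end fcyc

/-- the gadgets -/
theorem exists_gadget (q g : ℕ) (hq : 1 ≤ q) : ∃ (V : Type) (_ : Fintype V) (D Hf : SimpleGraph V)
    (x y : V), D ≤ Hf ∧ Hf.Adj x y ∧ ¬ D.Adj x y ∧
    (∃ φ : D.Coloring (Fin q), φ x = φ y) ∧ (∀ c : D.Coloring (Fin q), c x = c y) ∧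
    ∀ l f, FCyc Hf l f → g < l := by
  classical
  obtain ⟨V, hV, H, hH1, hH2⟩ := erdos q g
  obtain ⟨H', ⟨hle, hnc⟩, hmin⟩ := (wellFounded_lt (α := SimpleGraph V)).has_min
    {G | G ≤ H ∧ ¬ G.Colorable q} ⟨H, le_rfl, hH1⟩
  have hne : H' ≠ ⊥ := by
    rintro rfl
    apply hnc
    exact ⟨SimpleGraph.Coloring.mk (fun _ => ⟨0, hq⟩) (fun h => absurd h (by simp))⟩
  obtain ⟨x, y, hxy⟩ := SimpleGraph.ne_bot_iff_exists_adj.mp hne
  let D : SimpleGraph V := H'.deleteEdges {s(x, y)}
  have hDle : D ≤ H' := SimpleGraph.deleteEdges_le _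
  have hnD : ¬ D.Adj x y := by
    intro h
    rw [SimpleGraph.deleteEdges_adj] at h
    exact h.2 rfl
  have hlt : D < H' := by
    refine lt_of_le_of_ne hDle ?_
    intro h
    apply hnD
    rw [h]
    exact hxy
  have hcol : D.Colorable q := by
    by_contra h
    exact hmin D ⟨hDle.trans hle, h⟩ hlt
  have hall : ∀ c : D.Coloring (Fin q), c x = c y := by
    intro c
    by_contra h
    apply hnc
    refine ⟨SimpleGraph.Coloring.mk c ?_⟩
    intro a b hab
    by_cases he : s(a, b) = s(x, y)
    · rcases Sym2.eq_iff.mp he with ⟨rfl, rfl⟩ | ⟨rfl, rfl⟩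
      · exact h
      · exact Ne.symm h
    · exact c.valid (by rw [SimpleGraph.deleteEdges_adj]; exact ⟨hab, he⟩)
  obtain ⟨φ⟩ := hcol
  exact ⟨V, hV, D, H', x, y, hDle, hxy, hnD, ⟨φ, hall φ⟩, hall,
    fun l f h => hH2 l f (FCyc.mono h hle)⟩

section graph

variable {V : Type} {k : ℕ} (C C' : SimpleGraph (Fin k)) (D : SimpleGraph V) (x y : V)

/-- the vertices of the big graph -/
abbrev Vtx : Type :=
  Fin k ⊕ ({p : Fin k × Fin k // p.1 ≠ p.2 ∧ ¬ C.Adj p.1 p.2} × {w : V // w ≠ y})

/-- adjacency of the big graph -/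
def GAdj : Vtx C y → Vtx C y → Prop
  | Sum.inl i, Sum.inl j => C'.Adj i j
  | Sum.inl i, Sum.inr (p, w) => (i = p.1.2 ∧ D.Adj y w.1) ∨ (i = p.1.1 ∧ w.1 = x)
  | Sum.inr (p, w), Sum.inl i => (i = p.1.2 ∧ D.Adj y w.1) ∨ (i = p.1.1 ∧ w.1 = x)
  | Sum.inr (p, w), Sum.inr (p', w') => p = p' ∧ D.Adj w.1 w'.1

/-- `K_k` with the edges outside `C` replaced by gadgets and the edges inside `C` outside `C'`
removed. -/
def GG : SimpleGraph (Vtx C y) where
  Adj := GAdj C C' D x y
  symm := ⟨by
    rintro (i | ⟨p, w⟩) (j | ⟨p', w'⟩) h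
    · exact SimpleGraph.Adj.symm h
    · exact h
    · exact h
    · exact ⟨h.1.symm, SimpleGraph.Adj.symm h.2⟩⟩
  loopless := ⟨by
    rintro (i | ⟨p, w⟩) h
    · exact C'.loopless.irrefl i h
    · exact D.loopless.irrefl w.1 h.2⟩

theorem colour_ext {q q' : ℕ} (hqq : q ≤ q') (φ : D.Coloring (Fin q)) (hφ : φ x = φ y)
    (σ : Fin k → Fin q') (h1 : ∀ i j, C'.Adj i j → σ i ≠ σ j)
    (h2 : ∀ i j, i ≠ j → ¬ C.Adj i j → σ i ≠ σ j) :
    ∃ κ : (GG C C' D x y).Coloring (Fin q'), ∀ i, κ (Sum.inl i) = σ i := by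
  let ι : Fin q → Fin q' := Fin.castLE hqq
  have hι : Function.Injective ι := Fin.castLE_injective hqq
  let κ : Vtx C y → Fin q' := fun a => match a with
    | Sum.inl i => σ i
    | Sum.inr (p, w) => Equiv.swap (ι (φ y)) (σ p.1.2) (ι (φ w.1))
  have hy : ∀ p : {p : Fin k × Fin k // p.1 ≠ p.2 ∧ ¬ C.Adj p.1 p.2},
      Equiv.swap (ι (φ y)) (σ p.1.2) (ι (φ y)) = σ p.1.2 := fun p => Equiv.swap_apply_left _ _
  have key : ∀ i p w, GAdj C C' D x y (Sum.inl i) (Sum.inr (p, w)) →
      σ i ≠ Equiv.swap (ι (φ y)) (σ p.1.2) (ι (φ w.1)) := by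
    intro i p w h
    rcases h with ⟨rfl, h⟩ | ⟨rfl, h⟩
    · conv_lhs => rw [← hy p]
      intro he
      exact φ.valid h (hι ((Equiv.swap _ _).injective he))
    · rw [h, hφ, hy p]
      exact h2 _ _ p.2.1 p.2.2
  refine ⟨SimpleGraph.Coloring.mk κ ?_, fun i => rfl⟩
  rintro (i | ⟨p, w⟩) (j | ⟨p', w'⟩) h
  · exact h1 i j h
  · exact key i p' w' h
  · exact (key j p w h).symm
  · obtain ⟨h3, h4⟩ := h
    subst h3
    intro he
    exact φ.valid h4 (hι ((Equiv.swap _ _).injective he))

theorem not_col {q : ℕ} (hq : q < k) (hall : ∀ c : D.Coloring (Fin q), c x = c y) (hxy : x ≠ y) :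
    ¬ (GG C C D x y).Colorable q := by
  classical
  rintro ⟨c⟩
  have hinj : Function.Injective fun i : Fin k => c (Sum.inl i) := by
    intro i j hij
    by_contra hne
    by_cases hC : C.Adj i j
    · exact c.valid (show (GG C C D x y).Adj (Sum.inl i) (Sum.inl j) from hC) hij
    · let p : {p : Fin k × Fin k // p.1 ≠ p.2 ∧ ¬ C.Adj p.1 p.2} := ⟨(i, j), hne, hC⟩
      let cc : V → Fin q := fun w => if h : w = y then c (Sum.inl j) else c (Sum.inr (p, ⟨w, h⟩))
      have hcc : ∀ {a b : V}, D.Adj a b → cc a ≠ cc b := by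
        intro a b hab
        by_cases ha : a = y
        · by_cases hb : b = y
          · subst ha; subst hb; exact absurd hab (D.loopless.irrefl _)
          · simp only [cc, dif_pos ha, dif_neg hb]
            apply c.valid
            left
            exact ⟨rfl, by subst ha; exact hab⟩
        · by_cases hb : b = y
          · simp only [cc, dif_pos hb, dif_neg ha]
            apply c.valid
            left
            exact ⟨rfl, by subst hb; exact hab.symm⟩
          · simp only [cc, dif_neg ha, dif_neg hb]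
            apply c.valid
            exact ⟨rfl, hab⟩
      have h1 := hall (SimpleGraph.Coloring.mk cc hcc)
      have h2 : cc x = cc y := h1
      simp only [cc, dif_neg hxy, dif_pos rfl] at h2
      have h3 : (GG C C D x y).Adj (Sum.inl i) (Sum.inr (p, ⟨x, hxy⟩)) := Or.inr ⟨rfl, rfl⟩
      apply c.valid h3
      rw [h2]
      exact hij
  have := Fintype.card_le_of_injective _ hinj
  simp at this
  omega

/-- forget the copy -/
def proj : Vtx C y → V
  | Sum.inl _ => y
  | Sum.inr (_, w) => w.1

theorem short {Hf : SimpleGraph V} {g : ℕ} (hle : D ≤ Hf) (hxy : Hf.Adj x y) (hnD : ¬ D.Adj x y)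
    (hg : ∀ l f, FCyc Hf l f → g < l) {l : ℕ} {f : ℕ → Vtx C y} (h : FCyc (GG C C' D x y) l f)
    (hl : l ≤ g) : ∀ i < l, ∃ a, f i = Sum.inl a := by
  intro i0 hi0
  by_contra hcon
  have h3 := h.three
  obtain ⟨p, w0, hp⟩ : ∃ p w, f i0 = Sum.inr (p, w) := by
    rcases hf : f i0 with a | ⟨p, w⟩
    · exact absurd ⟨a, hf⟩ hcon
    · exact ⟨p, w, rfl⟩
  by_cases hall : ∀ i < l, ∃ w, f i = Sum.inr (p, w)
  · -- all in one copy
    have : FCyc Hf l (fun i => proj C y (f i)) := by
      refine ⟨h3, ?_, ?_, ?_⟩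
      · intro i hi j hj hij
        obtain ⟨w, hw⟩ := hall i hi
        obtain ⟨w', hw'⟩ := hall j hj
        apply h.inj i hi j hj
        rw [hw, hw'] at hij ⊢
        have : w = w' := Subtype.ext hij
        rw [this]
      · intro i hi
        obtain ⟨w, hw⟩ := hall i (by omega)
        obtain ⟨w', hw'⟩ := hall (i + 1) hi
        have h4 := h.adj i hi
        rw [hw, hw'] at h4
        show Hf.Adj (proj C y (f i)) (proj C y (f (i + 1)))
        rw [hw, hw']
        exact hle h4.2
      · obtain ⟨w, hw⟩ := hall (l - 1) (by omega)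
        obtain ⟨w', hw'⟩ := hall 0 (by omega)
        have h4 := h.close
        rw [hw, hw'] at h4
        show Hf.Adj (proj C y (f (l - 1))) (proj C y (f 0))
        rw [hw, hw']
        exact hle h4.2
    have := hg _ _ this
    omega
  · push Not at hall
    obtain ⟨i1, hi1, hn1⟩ := hall
    obtain ⟨t, ht, hnt, hint⟩ := exists_boundary (by omega)
      (fun i => ∃ w, f i = Sum.inr (p, w)) i0 i1 hi0 hi1 ⟨w0, hp⟩ (by push Not; exact hn1)
    set f' : ℕ → Vtx C y := fun i => f ((i + t) % l) with hf'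
    have h' : FCyc (GG C C' D x y) l f' := FCyc.rotate h t
    have hz : ¬ ∃ w, f' 0 = Sum.inr (p, w) := by
      simp only [hf', zero_add, Nat.mod_eq_of_lt ht]
      exact hnt
    have ho : ∃ w, f' 1 = Sum.inr (p, w) := by
      simp only [hf', add_comm 1 t]
      exact hint
    -- neighbours of the copy
    have hnb : ∀ a w, (¬ ∃ w, a = Sum.inr (p, w)) → (GG C C' D x y).Adj a (Sum.inr (p, w)) →
        ∃ i, a = Sum.inl i ∧ ((i = p.1.2 ∧ D.Adj y w.1) ∨ (i = p.1.1 ∧ w.1 = x)) := by
      rintro (i | ⟨p', w'⟩) w hna hadj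
      · exact ⟨i, rfl, hadj⟩
      · exfalso
        apply hna
        refine ⟨w', ?_⟩
        rw [hadj.1]
    classical
    have hex : ∃ m, 1 < m ∧ (m = l ∨ ¬ ∃ w, f' m = Sum.inr (p, w)) := ⟨l, by omega, Or.inl rfl⟩
    set m := Nat.find hex with hm
    obtain ⟨hm1, hm2⟩ := Nat.find_spec hex
    rw [← hm] at hm1 hm2
    have hml : m ≤ l := Nat.find_min' hex ⟨by omega, Or.inl rfl⟩
    have hin : ∀ j, 1 ≤ j → j < m → ∃ w, f' j = Sum.inr (p, w) := by
      intro j h1 h2
      rcases Nat.lt_or_ge 1 j with h4 | h4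
      · have := Nat.find_min hex h2
        rw [not_and_or, not_or, not_not] at this
        rcases this with h5 | h5
        · exact absurd h4 h5
        · exact h5.2
      · have : j = 1 := by omega
        rw [this]; exact ho
    obtain ⟨w1, hw1⟩ := ho
    obtain ⟨wl, hwl⟩ := hin (m - 1) (by omega) (by omega)
    have hadj0 : (GG C C' D x y).Adj (f' 0) (f' 1) := h'.adj 0 (by omega)
    rw [hw1] at hadj0
    obtain ⟨a, ha, ha'⟩ := hnb _ _ hz hadj0
    -- the end of the segment
    obtain ⟨e, he, hee, hadj1⟩ : ∃ e, e < l ∧ (¬ ∃ w, f' e = Sum.inr (p, w)) ∧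
        (GG C C' D x y).Adj (f' e) (f' (m - 1)) ∧ (m = 2 → e = 2) := by
      by_cases hme : m = l
      · refine ⟨0, by omega, hz, ?_, by omega⟩
        rw [hme]
        exact h'.close.symm
      · refine ⟨m, by omega, ?_, ?_, fun h => h⟩
        · rcases hm2 with h5 | h5
          · exact absurd h5 hme
          · exact h5
        · have := h'.adj (m - 1) (by omega)
          have e1 : m - 1 + 1 = m := by omega
          rw [e1] at this
          exact this.symm
    obtain ⟨hadj1, he2⟩ := hadj1
    rw [hwl] at hadj1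
    obtain ⟨b, hb, hb'⟩ := hnb _ _ hee hadj1
    by_cases hm2' : m = 2
    · -- a segment of length one
      have he3 := he2 hm2'
      have hab : a ≠ b := by
        intro hab
        have : f' 0 = f' e := by rw [ha, hb, hab]
        have := h'.inj 0 (by omega) e he this
        omega
      have hww : w1 = wl := by
        have e1 : m - 1 = 1 := by omega
        rw [e1, hw1] at hwl
        have := Sum.inr.inj hwl
        exact (Prod.mk.inj this).2
      subst hww
      rcases ha' with ⟨h5, h6⟩ | ⟨h5, h6⟩ <;> rcases hb' with ⟨h7, h8⟩ | ⟨h7, h8⟩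
      · exact hab (h5.trans h7.symm)
      · rw [h8] at h6; exact hnD h6.symm
      · rw [h6] at h8; exact hnD h8.symm
      · exact hab (h5.trans h7.symm)
    · have hyw : ∀ w : {w : V // w ≠ y}, ∀ i : Fin k,
          ((i = p.1.2 ∧ D.Adj y w.1) ∨ (i = p.1.1 ∧ w.1 = x)) → Hf.Adj y w.1 := by
        intro w i hi
        rcases hi with ⟨-, h5⟩ | ⟨-, h5⟩
        · exact hle h5
        · rw [h5]; exact hxy.symm
      have : FCyc Hf m (fun i => proj C y (f' i)) := by
        refine ⟨by omega, ?_, ?_, ?_⟩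
        · intro i hi j hj hij
          rcases Nat.eq_zero_or_pos i with rfl | hi0
          · rcases Nat.eq_zero_or_pos j with rfl | hj0
            · rfl
            · exfalso
              obtain ⟨w, hw⟩ := hin j hj0 hj
              rw [ha, hw] at hij
              exact w.2 hij.symm
          · rcases Nat.eq_zero_or_pos j with rfl | hj0
            · exfalso
              obtain ⟨w, hw⟩ := hin i hi0 hi
              rw [ha, hw] at hij
              exact w.2 hij
            · obtain ⟨w, hw⟩ := hin i hi0 hi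
              obtain ⟨w', hw'⟩ := hin j hj0 hj
              apply h'.inj i (by omega) j (by omega)
              rw [hw, hw'] at hij ⊢
              have : w = w' := Subtype.ext hij
              rw [this]
        · intro i hi
          show Hf.Adj (proj C y (f' i)) (proj C y (f' (i + 1)))
          rcases Nat.eq_zero_or_pos i with rfl | hi0
          · rw [ha, zero_add, hw1]
            exact hyw w1 a ha'
          · obtain ⟨w, hw⟩ := hin i hi0 (by omega)
            obtain ⟨w', hw'⟩ := hin (i + 1) (by omega) hi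
            have h4 := h'.adj i (by omega)
            rw [hw, hw'] at h4 ⊢
            exact hle h4.2
        · show Hf.Adj (proj C y (f' (m - 1))) (proj C y (f' 0))
          rw [ha, hwl]
          exact (hyw wl b hb').symm
      have := hg _ _ this
      omega

end graph

end Pool.Agent.W179.ST
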