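import Pool.Agent.W979.TE.Defs3

/-!
# The explicit tree (S_TREE3)
-/

set_option autoImplicit false

open Classical

namespace Pool.Agent.W179.TE3Tree

open Pool.Agent.W979.TE Pool.Agent.W979.TE3

/-- connectors -/
abbrev Kn (s q : ℕ) : Type := Fin s ⊕ (Option (Fin s) × Fin q)

/-- centres, connectors, roots -/
abbrev TV (s q : ℕ) : Type := Option (Fin s) ⊕ (Kn s q ⊕ (Option (Fin s) × Fin q))

variable {s q : ℕ}

/-- connector as a vertex -/
def kv (κ : Kn s q) : TV s q := .inr (.inl κ)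

/-- the two neighbours of a connector -/
def nb : Kn s q → Bool → TV s q
  | .inl _, false => .inl none
  | .inl i, true => .inl (some i)
  | .inr p, false => .inl p.1
  | .inr p, true => .inr (.inr p)

theorem kv_ne_nb (κ κ' : Kn s q) (b : Bool) : kv κ ≠ nb κ' b := by
  rcases κ' with i | p <;> cases b <;> simp [kv, nb]

theorem kv_inj : Function.Injective (kv : Kn s q → TV s q) := by
  intro a b h
  simpa [kv] using h

theorem nb_inj (κ : Kn s q) : Function.Injective (nb κ) := by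
  intro a b h
  rcases κ with i | p <;> cases a <;> cases b <;> simp_all [nb]

/-- colour -/
def col : TV s q → Fin 2
  | .inl _ => 0
  | .inr (.inl _) => 1
  | .inr (.inr _) => 0

theorem col_nb (κ : Kn s q) (b : Bool) : col (kv κ) ≠ col (nb κ b) := by
  rcases κ with i | p <;> cases b <;> simp [kv, nb, col]

/-- the tree -/
def T (s q : ℕ) : SimpleGraph (TV s q) :=
  SimpleGraph.fromRel (fun u v => ∃ κ b, u = kv κ ∧ v = nb κ b)

/-- the roots -/
def R (s q : ℕ) : Set (TV s q) := {v | ∃ p, v = .inr (.inr p)}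

theorem adj_iff (u v : TV s q) : (T s q).Adj u v ↔
    ∃ κ b, (u = kv κ ∧ v = nb κ b) ∨ (v = kv κ ∧ u = nb κ b) := by
  unfold T
  rw [SimpleGraph.fromRel_adj]
  constructor
  · rintro ⟨-, ⟨κ, b, h⟩ | ⟨κ, b, h⟩⟩
    · exact ⟨κ, b, Or.inl h⟩
    · exact ⟨κ, b, Or.inr h⟩
  · rintro ⟨κ, b, ⟨rfl, rfl⟩ | ⟨rfl, rfl⟩⟩
    · exact ⟨kv_ne_nb _ _ _, Or.inl ⟨κ, b, rfl, rfl⟩⟩
    · exact ⟨(kv_ne_nb _ _ _).symm, Or.inr ⟨κ, b, rfl, rfl⟩⟩

theorem eS_eq (S : Set (TV s q)) :
    eS (T s q) S = (Finset.univ.filter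
      (fun p : Kn s q × Bool => kv p.1 ∈ S ∨ nb p.1 p.2 ∈ S)).card := by
  unfold eS
  have h : ({e | e ∈ (T s q).edgeSet ∧ ∃ v ∈ S, v ∈ e} : Set (Sym2 (TV s q))) =
      (fun p : Kn s q × Bool => s(kv p.1, nb p.1 p.2)) ''
        {p : Kn s q × Bool | kv p.1 ∈ S ∨ nb p.1 p.2 ∈ S} := by
    ext e
    constructor
    · rintro ⟨he, v, hvS, hve⟩
      induction e using Sym2.ind with
      | _ a b =>
        rw [SimpleGraph.mem_edgeSet, adj_iff] at he
        rw [Sym2.mem_iff] at hve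
        obtain ⟨κ, c, ⟨h1, h2⟩ | ⟨h1, h2⟩⟩ := he
        · refine ⟨(κ, c), ?_, ?_⟩
          · rcases hve with rfl | rfl
            · left; rw [← h1]; exact hvS
            · right; rw [← h2]; exact hvS
          · simp only [h1, h2]
        · refine ⟨(κ, c), ?_, ?_⟩
          · rcases hve with rfl | rfl
            · right; rw [← h2]; exact hvS
            · left; rw [← h1]; exact hvS
          · simp only [h1, h2]
            exact Sym2.eq_swap
    · rintro ⟨⟨κ, c⟩, h1, rfl⟩
      refine ⟨?_, ?_⟩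
      · show s(kv κ, nb κ c) ∈ (T s q).edgeSet
        rw [SimpleGraph.mem_edgeSet, adj_iff]
        exact ⟨κ, c, Or.inl ⟨rfl, rfl⟩⟩
      · rcases h1 with h2 | h2
        · exact ⟨_, h2, Sym2.mem_mk_left _ _⟩
        · exact ⟨_, h2, Sym2.mem_mk_right _ _⟩
  rw [h, Set.InjOn.ncard_image]
  · rw [← Set.ncard_coe_finset]
    congr 1
    ext v
    simp
  · rintro ⟨κ, c⟩ _ ⟨κ', c'⟩ _ hvv
    simp only [Sym2.eq_iff] at hvv
    rcases hvv with ⟨h3, h4⟩ | ⟨h3, h4⟩
    · obtain rfl := kv_inj h3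
      rw [nb_inj κ h4]
    · exact absurd h3 (kv_ne_nb _ _ _)

/-- indicator -/
noncomputable def ind (P : Prop) : ℕ := if P then 1 else 0

theorem ind_le (P : Prop) : ind P ≤ 1 := by
  unfold ind; split_ifs <;> simp

theorem ind_true {P : Prop} (h : P) : ind P = 1 := if_pos h
theorem ind_false {P : Prop} (h : ¬ P) : ind P = 0 := if_neg h

theorem eS_sum (S : Set (TV s q)) :
    eS (T s q) S = ∑ κ : Kn s q, (ind (kv κ ∈ S ∨ nb κ true ∈ S) +
      ind (kv κ ∈ S ∨ nb κ false ∈ S)) := by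
  rw [eS_eq, Finset.card_filter, Fintype.sum_prod_type]
  apply Finset.sum_congr rfl
  intro κ _
  rw [Fintype.sum_bool]
  unfold ind
  congr

theorem ncard_eq (S : Set (TV s q)) (hS : S ⊆ (R s q)ᶜ) :
    S.ncard = ∑ x : Option (Fin s), ind ((.inl x : TV s q) ∈ S) +
      ∑ κ : Kn s q, ind (kv κ ∈ S) := by
  have hw : ∀ l, (.inr (.inr l) : TV s q) ∉ S := by
    intro l hl
    exact hS hl ⟨l, rfl⟩
  have e : S.ncard = (Finset.univ.filter (fun v : TV s q => v ∈ S)).card := by
    rw [← Set.ncard_coe_finset]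
    congr 1
    ext v
    simp
  rw [e, Finset.card_filter, Fintype.sum_sum_type]
  congr 1
  rw [Fintype.sum_sum_type (f := fun x : Kn s q ⊕ (Option (Fin s) × Fin q) =>
    if (Sum.inr x : TV s q) ∈ S then 1 else 0)]
  rw [Finset.sum_eq_zero (s := Finset.univ) (f := fun x : Option (Fin s) × Fin q =>
    if (Sum.inr (Sum.inr x) : TV s q) ∈ S then 1 else 0) (fun x _ => if_neg (hw x)), add_zero]
  rfl

theorem inl_mem (x : Option (Fin s)) : (.inl x : TV s q) ∈ (R s q)ᶜ := by
  rintro ⟨p, hp⟩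
  simp at hp

theorem kv_mem (κ : Kn s q) : kv κ ∈ (R s q)ᶜ := by
  rintro ⟨p, hp⟩
  simp [kv] at hp

theorem centre_bound (S : Set (TV s q)) :
    hh s q * ∑ x : Option (Fin s), ind ((.inl x : TV s q) ∈ S) ≤
      (s + 1) * ∑ κ : Kn s q, ind (nb κ true ∈ S ∨ nb κ false ∈ S) := by
  have h1 : ∑ κ : Kn s q, ind (nb κ true ∈ S ∨ nb κ false ∈ S) ≥
      ∑ i : Fin s, ind ((.inl (some i) : TV s q) ∈ S ∨ (.inl none : TV s q) ∈ S) +
      q * ∑ x : Option (Fin s), ind ((.inl x : TV s q) ∈ S) := by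
    rw [Fintype.sum_sum_type]
    apply Nat.add_le_add (le_of_eq rfl)
    rw [Fintype.sum_prod_type, Finset.mul_sum]
    apply Finset.sum_le_sum
    intro x _
    calc q * ind ((.inl x : TV s q) ∈ S) = ∑ _l : Fin q, ind ((.inl x : TV s q) ∈ S) := by simp
      _ ≤ _ := by
        apply Finset.sum_le_sum
        intro l _
        by_cases h : (.inl x : TV s q) ∈ S
        · have h' : nb (Sum.inr (x, l) : Kn s q) true ∈ S ∨ nb (Sum.inr (x, l) : Kn s q) false ∈ S :=
            Or.inr h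
          rw [ind_true h, ind_true h']
        · rw [ind_false h]; exact Nat.zero_le _
  refine le_trans ?_ (Nat.mul_le_mul_left _ h1)
  rw [Fintype.sum_option]
  have hj : ∑ i : Fin s, ind ((.inl (some i) : TV s q) ∈ S) ≤ s := by
    calc _ ≤ ∑ i : Fin s, 1 := Finset.sum_le_sum (fun i _ => ind_le _)
      _ = s := by simp
  by_cases hc : (.inl none : TV s q) ∈ S
  · have h3 : ∑ i : Fin s, ind ((.inl (some i) : TV s q) ∈ S ∨ (.inl none : TV s q) ∈ S) = s := by
      rw [Finset.sum_congr rfl (fun i _ => ind_true (Or.inr hc))]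
      simp
    rw [h3, ind_true hc]
    generalize ∑ i : Fin s, ind ((.inl (some i) : TV s q) ∈ S) = k at hj
    unfold hh
    have : s * k ≤ s * s := Nat.mul_le_mul_left _ hj
    nlinarith
  · have h3 : ∑ i : Fin s, ind ((.inl (some i) : TV s q) ∈ S ∨ (.inl none : TV s q) ∈ S) =
        ∑ i : Fin s, ind ((.inl (some i) : TV s q) ∈ S) := by
      apply Finset.sum_congr rfl
      intro i _
      unfold ind
      simp [hc]
    rw [h3, ind_false hc]
    generalize ∑ i : Fin s, ind ((.inl (some i) : TV s q) ∈ S) = k at hj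
    unfold hh
    nlinarith

theorem balanced (hq : 1 ≤ q) (S : Set (TV s q)) (hS : S ⊆ (R s q)ᶜ) :
    (2 * hh s q) * S.ncard ≤ (s + 1 + hh s q) * eS (T s q) S := by
  rw [eS_sum, ncard_eq S hS, Nat.mul_add]
  have h1 := centre_bound S
  have hg : s + 1 ≤ hh s q := by unfold hh; nlinarith
  have h2 : ∀ κ : Kn s q, 2 * hh s q * ind (kv κ ∈ S) +
      2 * (s + 1) * ind (nb κ true ∈ S ∨ nb κ false ∈ S) ≤
      (s + 1 + hh s q) * (ind (kv κ ∈ S ∨ nb κ true ∈ S) +
        ind (kv κ ∈ S ∨ nb κ false ∈ S)) := by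
    intro κ
    unfold ind
    by_cases a : kv κ ∈ S <;> by_cases b : nb κ true ∈ S <;> by_cases c : nb κ false ∈ S <;>
      simp [a, b, c] <;> nlinarith
  have h3 := Finset.sum_le_sum (s := Finset.univ) (fun κ (_ : κ ∈ Finset.univ) => h2 κ)
  rw [Finset.sum_add_distrib, ← Finset.mul_sum, ← Finset.mul_sum, ← Finset.mul_sum] at h3
  nlinarith

theorem ncard_R : ((R s q)ᶜ).ncard = s + 1 + hh s q := by
  rw [ncard_eq _ subset_rfl]
  rw [Finset.sum_congr rfl (fun x _ => ind_true (inl_mem x)),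
    Finset.sum_congr rfl (fun x _ => ind_true (kv_mem x))]
  simp [hh]

theorem eS_R : eS (T s q) (R s q)ᶜ = 2 * hh s q := by
  rw [eS_sum]
  rw [Finset.sum_congr rfl (fun x _ => by
    rw [ind_true (Or.inl (kv_mem x)), ind_true (Or.inl (kv_mem x))])]
  simp [hh]
  ring

/-- the embedding -/
def emb {W : Type} {t : ℕ} (u : Fin t → Option (Fin s) → W) (ρ : Option (Fin s) → Fin q → W)
    (β : Fin t → Fin s → W) (γ : Fin t → Option (Fin s) → Fin q → W) (j : Fin t) : TV s q → W
  | .inl x => u j x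
  | .inr (.inl (.inl i)) => β j i
  | .inr (.inl (.inr p)) => γ j p.1 p.2
  | .inr (.inr p) => ρ p.1 p.2

theorem hasBU (t : ℕ) (W : Type) (G : SimpleGraph W) (hG : GSB G s q t) :
    HasBU (T s q) (R s q) t G := by
  obtain ⟨u, ρ, β, γ, h1, h2, h3, h4, iu, iρ, huρ, ik, huβ, huγ, hρβ, hρc⟩ := hG
  refine ⟨fun p => emb u ρ β γ ⟨p.1.2, p.2.1⟩ p.1.1, ?_, ?_⟩
  · have key : ∀ (j j' : Fin t) (v v' : TV s q), (v ∈ R s q → j.1 = 0) → (v' ∈ R s q → j'.1 = 0) →
        emb u ρ β γ j v = emb u ρ β γ j' v' → v = v' ∧ j = j' := by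
      intro j j' v v' hv hv' h
      rcases v with x | (i | ⟨x, l⟩) | ⟨x, l⟩ <;> rcases v' with x' | (i' | ⟨x', l'⟩) | ⟨x', l'⟩ <;>
        simp only [emb] at h
      · have := @iu (j, x) (j', x') h
        simp only [Prod.mk.injEq] at this
        rw [this.1, this.2]; exact ⟨rfl, rfl⟩
      · exact absurd h (huβ _ _ _ _)
      · exact absurd h (huγ _ _ _ _ _)
      · exact absurd h (huρ _ _ _ _)
      · exact absurd h.symm (huβ _ _ _ _)
      · have := @ik (j, .inl i) (j', .inl i') h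
        simp only [Prod.mk.injEq, Sum.inl.injEq] at this
        rw [this.1, this.2]; exact ⟨rfl, rfl⟩
      · have := @ik (j, .inl i) (j', .inr (x', l')) h
        simp at this
      · exact absurd h.symm (hρβ _ _ _ _)
      · exact absurd h.symm (huγ _ _ _ _ _)
      · have := @ik (j, .inr (x, l)) (j', .inl i') h
        simp at this
      · have := @ik (j, .inr (x, l)) (j', .inr (x', l')) h
        simp only [Prod.mk.injEq, Sum.inr.injEq] at this
        rw [this.1, this.2.1, this.2.2]; exact ⟨rfl, rfl⟩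
      · exact absurd h.symm (hρc _ _ _ _ _)
      · exact absurd h.symm (huρ _ _ _ _)
      · exact absurd h (hρβ _ _ _ _)
      · exact absurd h (hρc _ _ _ _ _)
      · have := @iρ (x, l) (x', l') h
        simp only [Prod.mk.injEq] at this
        refine ⟨by rw [this.1, this.2], ?_⟩
        apply Fin.ext
        rw [hv ⟨_, rfl⟩, hv' ⟨_, rfl⟩]
    intro p p' hpp
    obtain ⟨e1, e2⟩ := key _ _ _ _ p.2.2 p'.2.2 hpp
    exact Subtype.ext (Prod.ext e1 (by simpa using e2))
  · have key0 : ∀ (j j' : Fin t) (κ : Kn s q) (b : Bool),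
        (j = j' ∨ nb κ b ∈ R s q) → G.Adj (emb u ρ β γ j (kv κ)) (emb u ρ β γ j' (nb κ b)) := by
      intro j j' κ b h
      rcases κ with i | ⟨x, l⟩ <;> cases b <;> simp only [emb, kv, nb]
      · have hj : j = j' := by
          rcases h with h | h
          · exact h
          · exact absurd h (inl_mem _)
        rw [hj]; exact (h1 _ _).symm
      · have hj : j = j' := by
          rcases h with h | h
          · exact h
          · exact absurd h (inl_mem _)
        rw [hj]; exact (h2 _ _).symm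
      · have hj : j = j' := by
          rcases h with h | h
          · exact h
          · exact absurd h (inl_mem _)
        rw [hj]; exact (h3 _ _ _).symm
      · exact (h4 _ _ _).symm
    have key1 : ∀ (j j' : Fin t) (v v' : TV s q), (T s q).Adj v v' →
        (j.1 = j'.1 ∨ v ∈ R s q ∨ v' ∈ R s q) →
        G.Adj (emb u ρ β γ j v) (emb u ρ β γ j' v') := by
      intro j j' v v' hT h5
      rw [adj_iff] at hT
      obtain ⟨κ, c, ⟨rfl, rfl⟩ | ⟨rfl, rfl⟩⟩ := hT
      · apply key0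
        rcases h5 with h | h | h
        · exact Or.inl (Fin.ext h)
        · exact absurd h (kv_mem _)
        · exact Or.inr h
      · apply SimpleGraph.Adj.symm
        apply key0
        rcases h5 with h | h | h
        · exact Or.inl (Fin.ext h.symm)
        · exact Or.inr h
        · exact absurd h (kv_mem _)
    have key : ∀ a b : BV (TV s q) (R s q) t,
        (T s q).Adj a.1.1 b.1.1 ∧ (a.1.2 = b.1.2 ∨ a.1.1 ∈ R s q ∨ b.1.1 ∈ R s q) →
        G.Adj (emb u ρ β γ ⟨a.1.2, a.2.1⟩ a.1.1) (emb u ρ β γ ⟨b.1.2, b.2.1⟩ b.1.1) :=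
      fun a b h => key1 _ _ _ _ h.1 h.2
    intro a b hab
    unfold BU at hab
    rw [SimpleGraph.fromRel_adj] at hab
    rcases hab.2 with h | h
    · exact key a b h
    · exact (key b a h).symm

theorem tree3 : S_TREE3 := by
  intro s q hs hq
  refine ⟨TV s q, inferInstance, T s q, R s q, ncard_R, eS_R, balanced hq, ?_, hasBU⟩
  intro t
  refine ⟨SimpleGraph.Coloring.mk (fun b => col b.1.1) ?_⟩
  intro a b hab
  unfold BU at hab
  rw [SimpleGraph.fromRel_adj] at hab
  have key : ∀ u v : TV s q, (T s q).Adj u v → col u ≠ col v := by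
    intro u v huv
    rw [adj_iff] at huv
    obtain ⟨κ, c, ⟨rfl, rfl⟩ | ⟨rfl, rfl⟩⟩ := huv
    · exact col_nb _ _
    · exact (col_nb _ _).symm
  rcases hab.2 with h | h
  · exact key _ _ h.1
  · exact (key _ _ h.1).symm

end Pool.Agent.W179.TE3Tree
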