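import Pool.Agent.W894.HT.MDefs
import Pool.Agent.W381.HTGad

/-!
# Project HM: one gadget, with weights
-/

namespace Pool.Agent.W179.HMWgad

open Pool.Agent.W894.HT
open Pool.Agent.W381.HTGad hiding main

section cw

variable {N : Type}

theorem cw_split (g : N → N → ℤ) (u : N) (B : List N) :
    ∀ A : List N, cw g (A ++ u :: B) = cw g (A ++ [u]) * cw g (u :: B)
  | [] => by
    have : cw g [u] = 1 := rfl
    rw [List.nil_append, List.nil_append, this, one_mul]
  | [c] => by
    have h1 : cw g ([c] ++ u :: B) = g c u * cw g (u :: B) := rfl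
    have h2 : cw g ([c] ++ [u]) = g c u * 1 := rfl
    rw [h1, h2, mul_one]
  | c :: d :: A => by
    have h1 : cw g ((c :: d :: A) ++ u :: B) = g c d * cw g ((d :: A) ++ u :: B) := rfl
    have h2 : cw g ((c :: d :: A) ++ [u]) = g c d * cw g ((d :: A) ++ [u]) := rfl
    rw [h1, h2, cw_split g u B (d :: A), mul_assoc]

theorem cw_one (g : N → N → ℤ) (u v w : N) (h : g u w * g w v = - g u v) (A B : List N) :
    cw g (A ++ u :: w :: v :: B) = - cw g (A ++ u :: v :: B) := by
  rw [cw_split g u (w :: v :: B) A, cw_split g u (v :: B) A]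
  have h1 : cw g (u :: w :: v :: B) = g u w * (g w v * cw g (v :: B)) := rfl
  have h2 : cw g (u :: v :: B) = g u v * cw g (v :: B) := rfl
  rw [h1, h2, ← mul_assoc (g u w), h]
  ring

theorem cw_two (g : N → N → ℤ) (u v w z : N) (h : g u w * g w z * g z v = - g u v)
    (A B : List N) :
    cw g (A ++ u :: w :: z :: v :: B) = - cw g (A ++ u :: v :: B) := by
  rw [cw_split g u (w :: z :: v :: B) A, cw_split g u (v :: B) A]
  have h1 : cw g (u :: w :: z :: v :: B) = g u w * (g w z * (g z v * cw g (v :: B))) := rfl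
  have h2 : cw g (u :: v :: B) = g u v * cw g (v :: B) := rfl
  rw [h1, h2, ← mul_assoc (g u w), ← mul_assoc (g u w * g w z), h]
  ring

end cw

/-- a toggle, with the new set described by its members -/
theorem wtog (h : S_WTOG) (N : Type) (Q : Finset (List N)) (ω : List N → ℤ) (u v : N)
    (w : List N) (hw : w ≠ [])
    (huv : u ≠ v) (hQ : ∀ l ∈ Q, l.Nodup)
    (h1 : ∀ A B : List N, (A ++ u :: v :: B ∈ Q ∧ ∀ z ∈ w, z ∉ A ++ u :: v :: B) ↔
      A ++ u :: (w ++ v :: B) ∈ Q)
    (h2 : ∀ A B : List N, (A ++ v :: u :: B ∈ Q ∧ ∀ z ∈ w, z ∉ A ++ v :: u :: B) ↔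
      A ++ v :: (w.reverse ++ u :: B) ∈ Q)
    (h3 : ∀ A B : List N, ω (A ++ u :: (w ++ v :: B)) = - ω (A ++ u :: v :: B))
    (h4 : ∀ A B : List N, ω (A ++ v :: (w.reverse ++ u :: B)) = - ω (A ++ v :: u :: B)) :
    ∃ Q' : Finset (List N), ∑ l ∈ Q, ω l = ∑ l ∈ Q', ω l ∧ ∀ l, l ∈ Q' ↔ (l ∈ Q ∧
      ¬ (([u, v] <:+: l ∨ [v, u] <:+: l) ∧ ∀ z ∈ w, z ∉ l) ∧
      ¬ (u :: (w ++ [v]) <:+: l ∨ v :: (w.reverse ++ [u]) <:+: l)) := by
  classical
  refine ⟨_, h N Q ω u v w hw huv hQ h1 h2 (fun A B _ => h3 A B) (fun A B _ => h4 A B),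
    fun l => ?_⟩
  rw [Finset.mem_filter]

theorem main (h : S_WTOG) : S_WGAD := by
  classical
  intro N Q g p q a x y hnd hsym g1 g2 g3 hQ hends hx hy t1a t1b t2a t2b t3a t3b
  have w1 : g y x * g x a = - g y a := by linarith
  have w1' : g a x * g x y = - g a y := by
    rw [hsym a x, hsym x y, hsym a y]; linarith
  have w2 : g x y * g y a = - g x a := by linarith
  have w2' : g a y * g y x = - g a x := by
    rw [hsym a y, hsym y x, hsym a x]; linarith
  have w3 : g p y * g y x * g x q = - g p q := by linarith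
  have w3' : g q x * g x y * g y p = - g q p := by
    rw [hsym q x, hsym x y, hsym y p, hsym q p]; linarith
  simp only [List.nodup_cons, List.mem_cons, List.not_mem_nil, or_false, not_or,
    List.nodup_nil, and_true, not_false_eq_true] at hnd
  obtain ⟨⟨hpq, hpa, hpx, hpy⟩, ⟨hqa, hqx, hqy⟩, ⟨hax, hay⟩, hxy⟩ := hnd
  -- toggle 1
  obtain ⟨Q1, e1, m1⟩ := wtog h N Q (cw g) y a [x] (by simp) (Ne.symm hay) hQ
    (by
      intro A B
      rw [show A ++ y :: ([x] ++ a :: B) = A ++ y :: x :: a :: B from rfl, ← t1a]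
      simp only [List.mem_singleton, forall_eq])
    (by
      intro A B
      rw [show A ++ a :: ([x].reverse ++ y :: B) = A ++ a :: x :: y :: B from rfl, ← t1b]
      simp only [List.mem_singleton, forall_eq])
    (fun A B => cw_one g y a x w1 A B) (fun A B => cw_one g a y x w1' A B)
  have c1 : ∀ l, l ∈ Q → (l ∈ Q1 ↔ C1 (pos l x) (pos l y) (pos l a)) := by
    intro l hl
    have hn := hQ l hl
    rw [m1]
    unfold C1
    simp only [List.mem_singleton, forall_eq, List.reverse_singleton, List.cons_append,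
      List.nil_append, inf2 hn, inf3 hn, hl, true_and]
    simp only [mem_iff, not_not]
  have hQ1 : ∀ l ∈ Q1, l.Nodup := fun l hl => hQ l ((m1 l).mp hl).1
  -- toggle 2
  obtain ⟨Q2, e2, m2⟩ := wtog h N Q1 (cw g) x a [y] (by simp) (Ne.symm hax) hQ1
    (by
      intro A B
      rw [show A ++ x :: ([y] ++ a :: B) = A ++ x :: y :: a :: B from rfl]
      simp only [List.mem_singleton, forall_eq]
      constructor
      · rintro ⟨h1, h2⟩
        have h3 := (t2a A B).mp ⟨((m1 _).mp h1).1, h2⟩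
        have hn := hQ _ h3
        rw [c1 _ h3]
        have hi : [x, y, a] <:+: A ++ x :: y :: a :: B := ⟨A, B, by simp⟩
        rw [inf3 hn] at hi
        exact C1_xya hi
      · intro h1
        have h3 := (t2a A B).mpr ((m1 _).mp h1).1
        refine ⟨?_, h3.2⟩
        rw [c1 _ h3.1]
        have h2 := h3.2
        rw [mem_iff, not_not] at h2
        rw [h2]
        exact C1_y0 _ _)
    (by
      intro A B
      rw [show A ++ a :: ([y].reverse ++ x :: B) = A ++ a :: y :: x :: B from rfl]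
      simp only [List.mem_singleton, forall_eq]
      constructor
      · rintro ⟨h1, h2⟩
        have h3 := (t2b A B).mp ⟨((m1 _).mp h1).1, h2⟩
        have hn := hQ _ h3
        rw [c1 _ h3]
        have hi : [a, y, x] <:+: A ++ a :: y :: x :: B := ⟨A, B, by simp⟩
        rw [inf3 hn] at hi
        exact C1_ayx hi
      · intro h1
        have h3 := (t2b A B).mpr ((m1 _).mp h1).1
        refine ⟨?_, h3.2⟩
        rw [c1 _ h3.1]
        have h2 := h3.2
        rw [mem_iff, not_not] at h2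
        rw [h2]
        exact C1_y0 _ _)
    (fun A B => cw_one g x a y w2 A B) (fun A B => cw_one g a x y w2' A B)
  have c2 : ∀ l, l ∈ Q → (l ∈ Q2 ↔ l ∈ Q1 ∧ C1 (pos l y) (pos l x) (pos l a)) := by
    intro l hl
    have hn := hQ l hl
    rw [m2]
    unfold C1
    simp only [List.mem_singleton, forall_eq, List.reverse_singleton, List.cons_append,
      List.nil_append, inf2 hn, inf3 hn]
    simp only [mem_iff, not_not]
  have hQ2 : ∀ l ∈ Q2, l.Nodup := fun l hl => hQ1 l ((m2 l).mp hl).1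
  have s2 : ∀ l ∈ Q2, l ∈ Q := fun l hl => ((m1 l).mp ((m2 l).mp hl).1).1
  -- toggle 3
  obtain ⟨Q3, e3, m3⟩ := wtog h N Q2 (cw g) p q [y, x] (by simp) hpq hQ2
    (by
      intro A B
      rw [show A ++ p :: ([y, x] ++ q :: B) = A ++ p :: y :: x :: q :: B from rfl]
      simp only [List.mem_cons, List.not_mem_nil, or_false, forall_eq_or_imp, forall_eq]
      constructor
      · rintro ⟨h1, h2⟩
        have h3 := (t3a A B).mp ⟨s2 _ h1, h2.2, h2.1⟩
        have hn := hQ _ h3
        rw [c2 _ h3, c1 _ h3]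
        have hi : [p, y, x, q] <:+: A ++ p :: y :: x :: q :: B := ⟨A, B, by simp⟩
        rw [inf4 hn] at hi
        exact ⟨C1_pyxq hi (ne_pos hqa), C1_pyxq' hi (ne_pos hpa)⟩
      · intro h1
        have h3 := (t3a A B).mpr (s2 _ h1)
        refine ⟨?_, h3.2.2, h3.2.1⟩
        rw [c2 _ h3.1, c1 _ h3.1]
        have h2 := h3.2
        rw [mem_iff, not_not, mem_iff, not_not] at h2
        rw [h2.1, h2.2]
        exact ⟨C1_y0 _ _, C1_y0 _ _⟩)
    (by
      intro A B
      rw [show A ++ q :: ([y, x].reverse ++ p :: B) = A ++ q :: x :: y :: p :: B from rfl]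
      simp only [List.mem_cons, List.not_mem_nil, or_false, forall_eq_or_imp, forall_eq]
      constructor
      · rintro ⟨h1, h2⟩
        have h3 := (t3b A B).mp ⟨s2 _ h1, h2.2, h2.1⟩
        have hn := hQ _ h3
        rw [c2 _ h3, c1 _ h3]
        have hi : [q, x, y, p] <:+: A ++ q :: x :: y :: p :: B := ⟨A, B, by simp⟩
        rw [inf4 hn] at hi
        exact ⟨C1_pyxq' hi (ne_pos hqa), C1_pyxq hi (ne_pos hpa)⟩
      · intro h1
        have h3 := (t3b A B).mpr (s2 _ h1)
        refine ⟨?_, h3.2.2, h3.2.1⟩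
        rw [c2 _ h3.1, c1 _ h3.1]
        have h2 := h3.2
        rw [mem_iff, not_not, mem_iff, not_not] at h2
        rw [h2.1, h2.2]
        exact ⟨C1_y0 _ _, C1_y0 _ _⟩)
    (fun A B => cw_two g p q y x w3 A B) (fun A B => cw_two g q p x y w3' A B)
  have c3 : ∀ l, l ∈ Q → (l ∈ Q3 ↔ l ∈ Q2 ∧
      ¬ (((pos l p ≠ 0 ∧ pos l q = pos l p + 1) ∨ (pos l q ≠ 0 ∧ pos l p = pos l q + 1)) ∧
        pos l y = 0 ∧ pos l x = 0) ∧
      ¬ ((pos l p ≠ 0 ∧ pos l y = pos l p + 1 ∧ pos l x = pos l p + 2 ∧ pos l q = pos l p + 3) ∨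
        (pos l q ≠ 0 ∧ pos l x = pos l q + 1 ∧ pos l y = pos l q + 2 ∧
          pos l p = pos l q + 3))) := by
    intro l hl
    have hn := hQ l hl
    rw [m3]
    have hrev : [y, x].reverse = [x, y] := rfl
    rw [hrev]
    simp only [List.mem_cons, List.not_mem_nil, or_false, forall_eq_or_imp, forall_eq,
      List.cons_append, List.nil_append, inf2 hn, inf4 hn]
    simp only [mem_iff, not_not]
  rw [e1, e2, e3]
  congr 1
  ext l
  rw [Finset.mem_filter]
  have hsub : l ∈ Q3 → l ∈ Q := fun hl => s2 l ((m3 l).mp hl).1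
  by_cases hl : l ∈ Q
  · have hn := hQ l hl
    rw [c3 l hl, c2 l hl, c1 l hl]
    simp only [hl, true_and]
    unfold CL
    simp only [inf2 hn, inf5 hn, mem_iff, not_not]
    obtain ⟨hx1, hy1, hx2, hy2⟩ := hends l hl
    constructor
    · rintro ⟨⟨h1, h2⟩, h3, h4⟩
      refine arith_fwd (pos l x) (pos l y) (pos l a) (pos l p) (pos l q) (ne_pos hqy)
        (ne_pos hay) (ne_pos hxy) ?_ ?_ ?_ ?_ h1.1 h1.2 h2.1 h2.2 h3 h4
      · intro h0
        obtain ⟨c, hc⟩ := exists_pred hn h0 hx1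
        have h2 := hx l hl c (Or.inl hc)
        rw [inf2 hn] at hc
        rcases h2 with rfl | rfl | rfl
        · exact Or.inl hc
        · exact Or.inr (Or.inl hc)
        · exact Or.inr (Or.inr hc)
      · intro h0
        obtain ⟨c, hc⟩ := exists_succ hn h0 hx2
        have h2 := hx l hl c (Or.inr hc)
        rw [inf2 hn] at hc
        rcases h2 with rfl | rfl | rfl
        · exact Or.inl hc.2
        · exact Or.inr (Or.inl hc.2)
        · exact Or.inr (Or.inr hc.2)
      · intro h0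
        obtain ⟨c, hc⟩ := exists_pred hn h0 hy1
        have h2 := hy l hl c (Or.inl hc)
        rw [inf2 hn] at hc
        rcases h2 with rfl | rfl | rfl
        · exact Or.inl hc
        · exact Or.inr (Or.inl hc)
        · exact Or.inr (Or.inr hc)
      · intro h0
        obtain ⟨c, hc⟩ := exists_succ hn h0 hy2
        have h2 := hy l hl c (Or.inr hc)
        rw [inf2 hn] at hc
        rcases h2 with rfl | rfl | rfl
        · exact Or.inl hc.2
        · exact Or.inr (Or.inl hc.2)
        · exact Or.inr (Or.inr hc.2)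
    · intro h0
      obtain ⟨h1, h2, h3, h4, h5, h6⟩ := arith_bwd _ _ _ _ _ h0
      exact ⟨⟨⟨h1, h2⟩, ⟨h3, h4⟩⟩, h5, h6⟩
  · constructor
    · intro h1
      exact absurd (hsub h1) hl
    · intro h1
      exact absurd h1.1 hl

end Pool.Agent.W179.HMWgad
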